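import Pool.Agent.Helper94.ZE.Count
import Pool.Agent.Helper60.ZE.PrimesEl
import Pool.Agent.Helper78.ZE.P

/-!
# Project ZE, piece CL: the cluster, uniform form
-/

set_option autoImplicit false

namespace Pool.Agent.Helper94.ZE

open Finset Pool.Agent.Helper18.ZE

/-- `2 ^ 15 x ^ 3 ≤ exp (19 x / 72)` for large `x`. -/
theorem exists_exp_bound : ∃ x1 : ℝ, ∀ x : ℝ, x1 ≤ x → 2 ^ 15 * x ^ 3 ≤ Real.exp (19 / 72 * x) := by
  have h1 := isLittleO_pow_exp_pos_mul_atTop 3 (b := 19 / 72) (by norm_num)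
  have h2 := (h1.def (c := 1 / 2 ^ 15) (by positivity)).and (Filter.eventually_ge_atTop (0 : ℝ))
  obtain ⟨x1, hx1⟩ := Filter.eventually_atTop.mp h2
  refine ⟨x1, fun x hx => ?_⟩
  obtain ⟨h3, h4⟩ := hx1 x hx
  rw [Real.norm_of_nonneg (by positivity), Real.norm_of_nonneg (Real.exp_pos _).le] at h3
  have h5 : 2 ^ 15 * x ^ 3 ≤ 2 ^ 15 * (1 / 2 ^ 15 * Real.exp (19 / 72 * x)) :=
    mul_le_mul_of_nonneg_left h3 (by positivity)
  linarith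

/-- The third condition of `cluster_of`. -/
theorem cond_of {B : ℕ} {L x1 : ℝ} (h1 : ∀ x : ℝ, x1 ≤ x → 2 ^ 15 * x ^ 3 ≤ Real.exp (19 / 72 * x))
    (hL : 1 ≤ L) (hx1 : x1 ≤ Real.log L) (hB : (B : ℝ) ^ 2 ≤ Real.log L) :
    2 ^ 15 * (B : ℝ) ^ 2 * Real.log L ^ 2 * L ^ (1 / 9 : ℝ) ≤ L ^ (3 / 8 : ℝ) := by
  have hL0 : 0 < L := by linarith
  have h2 := h1 _ hx1
  have h3 : L ^ (3 / 8 : ℝ) = Real.exp (19 / 72 * Real.log L) * L ^ (1 / 9 : ℝ) := by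
    have h4 : Real.exp (19 / 72 * Real.log L) = L ^ (19 / 72 : ℝ) := by
      rw [Real.rpow_def_of_pos hL0, mul_comm]
    rw [h4, ← Real.rpow_add hL0]
    norm_num
  rw [h3]
  refine mul_le_mul_of_nonneg_right (le_trans ?_ h2) (by positivity)
  calc 2 ^ 15 * (B : ℝ) ^ 2 * Real.log L ^ 2 ≤ 2 ^ 15 * Real.log L * Real.log L ^ 2 := by
        refine mul_le_mul_of_nonneg_right ?_ (by positivity)
        exact mul_le_mul_of_nonneg_left hB (by positivity)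
    _ = 2 ^ 15 * Real.log L ^ 3 := by ring

/-- The product over the primes of `a b`. -/
theorem prod_le_of {a b B : ℕ} {L : ℝ} (ha : 0 < a) (hb : 0 < b)
    (hN : (∏ p ∈ (a * b * (a + b)).primeFactors, p : ℕ) ≤ L ^ B) :
    (∏ p ∈ (a * b).primeFactors, p : ℕ) ≤ L ^ B := by
  have h1 : (∏ p ∈ (a * b).primeFactors, p) ≤ ∏ p ∈ (a * b * (a + b)).primeFactors, p := by
    refine Finset.prod_le_prod_of_subset_of_one_le' (Nat.primeFactors_mono (Dvd.intro _ rfl) ?_) ?_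
    · positivity
    · intro p hp _
      exact (Nat.prime_of_mem_primeFactors hp).one_lt.le
  exact le_trans (by exact_mod_cast h1) hN

/-- The uniform form, `K = 16 B`. -/
theorem exists_clusterU_of (hΩ : ∃ D : ℕ, ∀ (B : ℕ) (L : ℝ) (N : ℕ), 1 ≤ B → 1 ≤ L →
      ((B + 1 : ℕ) : ℝ) ^ (D * B) ≤ Real.log L → N ≠ 0 → (∏ p ∈ N.primeFactors, p : ℕ) ≤ L ^ B →
      ((16 * B : ℕ) : ℝ) ^ N.primeFactors.card ≤ L ^ (1 / 8 : ℝ)) :
    ∃ D : ℕ, ∀ (B a b Q : ℕ) (L : ℝ), 1 ≤ B → 0 < a → 0 < b → a.Coprime b →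
    L = Real.log (a + b : ℕ) → 1 ≤ L → ((B + 1 : ℕ) : ℝ) ^ (D * B) ≤ Real.log L →
    (∏ p ∈ (a * b * (a + b)).primeFactors, p : ℕ) ≤ L ^ B →
    L ≤ 128 * B * Real.log L * Q → 64 * B * Real.log L * Q ≤ L →
    ∃ (Y : ℕ) (T : Finset (ℕ × ℕ)), 1 ≤ Y ∧
      Real.log Y ≤ Real.log (modulus (a + b) Q) - Real.log L / 2 ∧ Q ≤ T.card ^ 9 ∧
      (∀ x ∈ T, ∀ y ∈ T, x.1 = y.1 → x = y) ∧
      (∀ x ∈ T, x.1 < Q ∧ x.2.Prime ∧ x.2 ≤ Y ∧ 4 * Q < x.2 ∧ x.2.Coprime (a * b * (a + b))) ∧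
      ∀ x ∈ T, ∀ y ∈ T, (∀ p ∈ (a * b).primeFactors, box a b Q (16 * B) x.1 p = box a b Q (16 * B) y.1 p) ∧
        theta a b Q x.1 x.2 ≡ theta a b Q y.1 y.2 [MOD modulus (a + b) Q] := by
  obtain ⟨x0, hC⟩ := Pool.Agent.Helper60.ZE.card_primes_el
  obtain ⟨D1, hΩ⟩ := hΩ
  obtain ⟨x1, hx1⟩ := exists_exp_bound
  refine ⟨D1 + x0 + ⌈x1⌉₊ + 4, ?_⟩
  intro B a b Q L hB ha hb hab hL hL1 hD hN hQ1 hQ2
  have hLpos : 0 < L := by linarith
  set D : ℕ := D1 + x0 + ⌈x1⌉₊ + 4 with hDdef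
  have hB2 : (1 : ℝ) ≤ ((B + 1 : ℕ) : ℝ) := by exact_mod_cast Nat.le_add_left 1 B
  -- `D ≤ (B + 1) ^ (D B)`
  have hDle : (D : ℝ) ≤ Real.log L := by
    have h1 : D ≤ (B + 1) ^ (D * B) := by
      calc D ≤ 2 ^ D := Nat.lt_two_pow_self.le
        _ ≤ (B + 1) ^ D := Nat.pow_le_pow_left (by omega) _
        _ ≤ (B + 1) ^ (D * B) := Nat.pow_le_pow_right (by omega) (Nat.le_mul_of_pos_right _ hB)
    have h2 : (D : ℝ) ≤ ((B + 1 : ℕ) : ℝ) ^ (D * B) := by exact_mod_cast h1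
    linarith
  have hD1 : ((B + 1 : ℕ) : ℝ) ^ (D1 * B) ≤ Real.log L := by
    refine le_trans (pow_le_pow_right₀ hB2 ?_) hD
    exact Nat.mul_le_mul_right _ (by omega)
  have hBsq : (B : ℝ) ^ 2 ≤ Real.log L := by
    refine le_trans ?_ hD
    calc (B : ℝ) ^ 2 ≤ ((B + 1 : ℕ) : ℝ) ^ 2 := by
          refine pow_le_pow_left₀ (by positivity) ?_ 2
          exact_mod_cast Nat.le_succ B
      _ ≤ ((B + 1 : ℕ) : ℝ) ^ (D * B) := pow_le_pow_right₀ hB2 (by nlinarith)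
  have hlogL : Real.log L ≤ L := (Real.log_le_sub_one_of_pos hLpos).trans (by linarith)
  have hDR : (D : ℝ) = D1 + x0 + ⌈x1⌉₊ + 4 := by
    rw [hDdef]
    push_cast
    ring
  have hD1' : (0 : ℝ) ≤ D1 := Nat.cast_nonneg _
  have hx0' : (0 : ℝ) ≤ x0 := Nat.cast_nonneg _
  have hx1' : (0 : ℝ) ≤ ⌈x1⌉₊ := Nat.cast_nonneg _
  have g4 : x1 ≤ Real.log L := by
    have := Nat.le_ceil x1
    linarith
  have g2 : (x0 : ℝ) ≤ L := by linarith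
  have g1 : 16 ≤ L := by
    have h1 : (4 : ℝ) ≤ Real.log L := by linarith
    have h2 : Real.log 16 ≤ Real.log L := by
      have h3 : (16 : ℝ) = 2 ^ 4 := by norm_num
      rw [h3, Real.log_pow]
      have := Real.log_two_lt_d9
      push_cast
      linarith
    exact (Real.log_le_log_iff (by norm_num) hLpos).mp h2
  have hc : a + b ≠ 0 := by omega
  have hQ : 0 < Q := by
    rcases Nat.eq_zero_or_pos Q with h | h
    · rw [h] at hQ1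
      simp only [Nat.cast_zero, mul_zero] at hQ1
      linarith
    · exact h
  exact cluster_of ha hb hab hQ (by omega) hB hL x0 hC hN hQ1 hQ2
    (hΩ B L (a * b) hB hL1 hD1 (by positivity) (prod_le_of ha hb hN))
    (Pool.Agent.Helper78.ZE.log_modulus_le hc) (Pool.Agent.Helper78.ZE.le_log_modulus hc hQ) g1 g2
    (cond_of hx1 hL1 g4 hBsq)

end Pool.Agent.Helper94.ZE
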