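import Pool.Agent.Helper94.ZE.DetDvd
import Pool.Agent.Helper12.ZE.Span

/-!
# Project ZE, piece D2: the determinant is divisible by a power of `P`
-/

set_option autoImplicit false

namespace Pool.Agent.Helper94.ZE

open Finset Pool.Agent.Helper18.ZE

/-- D2: the determinant is divisible by `P ^ ((s - 1) q T1)`. -/
theorem dvd_det {r q s : ℕ} (hq : 0 < q) (hr : 1 ≤ r) (hs : 1 ≤ s) (P : ℕ) (N : Row r → ℤ)
    (u κ : ZMod (P ^ ((s - 1) * q))) (ρ : Fin r → ZMod (P ^ ((s - 1) * q)))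
    (hρ : ∀ i, (P : ZMod (P ^ ((s - 1) * q))) ∣ ρ i - 1) (hκ : (P : ZMod (P ^ ((s - 1) * q))) ^ q ∣ κ - 1)
    (rows : Col r q s → Row r)
    (hN : ∀ c, (N (rows c) : ZMod (P ^ ((s - 1) * q))) =
      u * (∏ i : Fin r, ρ i ^ (rows c).1 i.succ) * κ ^ (rows c).2) :
    ((P : ℤ) ^ ((s - 1) * q * (Rx r q).card)) ∣ (Matrix.of fun c d => entry N (rows c) d).det := by
  have hπ : (P : ZMod (P ^ ((s - 1) * q))) ^ ((s - 1) * q) = 0 := by
    rw [← Nat.cast_pow]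
    exact ZMod.natCast_self _
  exact dvd_det_of P N u κ ρ
    (fun a => Pool.Agent.Helper12.ZE.span_exact hq hr hs (P : ZMod (P ^ ((s - 1) * q))) hπ u κ ρ hρ hκ a) rows hN

end Pool.Agent.Helper94.ZE
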