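import Pool.Agent.Helper18.ZE.Defs

/-!
# Project ZE, piece CL, first part: the pigeonhole principle and the injectivity
-/

set_option autoImplicit false

namespace Pool.Agent.Helper94.ZE

open Finset Pool.Agent.Helper18.ZE

theorem box_nonneg {a b Q K n p : ℕ} (hQ : 0 < Q) : 0 ≤ box a b Q K n p := by
  unfold Helper18.ZE.box
  have hQ' : (0 : ℤ) < Q := by exact_mod_cast hQ
  exact Int.ediv_nonneg (mul_nonneg (Int.natCast_nonneg K) (Int.emod_nonneg _ hQ'.ne')) hQ'.le

theorem box_lt {a b Q K n p : ℕ} (hQ : 0 < Q) (hK : 0 < K) : box a b Q K n p < K := by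
  unfold Helper18.ZE.box
  have hQ' : (0 : ℤ) < Q := by exact_mod_cast hQ
  have hK' : (0 : ℤ) < K := by exact_mod_cast hK
  exact Int.ediv_lt_of_lt_mul hQ' (mul_lt_mul_of_pos_left (Int.emod_lt_of_pos _ hQ') hK')

/-- The pigeonhole principle. -/
theorem exists_class {a b Q K : ℕ} (hQ : 0 < Q) (hK : 0 < K) (P : ℕ) (hP : 0 < P) (S : Finset (ℕ × ℕ)) :
    ∃ T ⊆ S, S.card ≤ K ^ (a * b).primeFactors.card * P * T.card ∧ ∀ x ∈ T, ∀ y ∈ T,
      (∀ p ∈ (a * b).primeFactors, box a b Q K x.1 p = box a b Q K y.1 p) ∧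
        theta a b Q x.1 x.2 ≡ theta a b Q y.1 y.2 [MOD P] := by
  classical
  rcases S.eq_empty_or_nonempty with h0 | h0
  · exact ⟨∅, Finset.empty_subset _, by simp [h0], by simp⟩
  let f : ℕ × ℕ → ((a * b).primeFactors → Fin K) × Fin P := fun x =>
    (fun p => ⟨(box a b Q K x.1 p).toNat, by
      have h1 := box_lt (a := a) (b := b) (n := x.1) (p := p) hQ hK
      have h2 := box_nonneg (a := a) (b := b) (K := K) (n := x.1) (p := p) hQ
      omega⟩, ⟨theta a b Q x.1 x.2 % P, Nat.mod_lt _ hP⟩)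
  obtain ⟨z, hz, hmax⟩ := Finset.exists_max_image (S.image f) (fun z => (S.filter fun x => f x = z).card)
    (h0.image f)
  refine ⟨S.filter fun x => f x = z, Finset.filter_subset _ _, ?_, ?_⟩
  · have h1 := Finset.card_le_mul_card_image (f := f) S (S.filter fun x => f x = z).card hmax
    have h2 : (S.image f).card ≤ K ^ (a * b).primeFactors.card * P := by
      refine (Finset.card_le_univ _).trans (le_of_eq ?_)
      rw [Fintype.card_prod, Fintype.card_fun, Fintype.card_fin, Fintype.card_fin, Fintype.card_coe]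
    calc S.card ≤ (S.filter fun x => f x = z).card * (S.image f).card := h1
      _ ≤ (S.filter fun x => f x = z).card * (K ^ (a * b).primeFactors.card * P) := Nat.mul_le_mul_left _ h2
      _ = _ := by ring
  · intro x hx y hy
    have h1 : f x = f y := (Finset.mem_filter.mp hx).2.trans (Finset.mem_filter.mp hy).2.symm
    have h2 : (f x).1 = (f y).1 := by rw [h1]
    have h3 : (f x).2 = (f y).2 := by rw [h1]
    refine ⟨fun p hp => ?_, ?_⟩
    · have h4 := congrFun h2 ⟨p, hp⟩
      have h5 : (box a b Q K x.1 p).toNat = (box a b Q K y.1 p).toNat := congrArg Fin.val h4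
      have h6 := box_nonneg (a := a) (b := b) (K := K) (n := x.1) (p := p) hQ
      have h7 := box_nonneg (a := a) (b := b) (K := K) (n := y.1) (p := p) hQ
      omega
    · exact congrArg Fin.val h3

theorem coprime_prod {a b Q : ℕ} (hab : a.Coprime b) (g : ℕ → ℕ) :
    (∏ p ∈ (a * b).primeFactors, p ^ g p).Coprime (modulus (a + b) Q) := by
  refine Nat.Coprime.prod_left fun p hp => Nat.Coprime.pow_left _ ?_
  unfold modulus
  refine Nat.Coprime.prod_right fun q hq => Nat.Coprime.pow_right _ ?_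
  have hp' := Nat.prime_of_mem_primeFactors hp
  have hq' := Nat.prime_of_mem_primeFactors hq
  rw [Nat.coprime_primes hp' hq']
  rintro rfl
  have h1 : p ∣ a * b := Nat.dvd_of_mem_primeFactors hp
  have h2 : p ∣ a + b := Nat.dvd_of_mem_primeFactors hq
  rcases (Nat.Prime.dvd_mul hp').mp h1 with h3 | h3
  · have h4 : p ∣ b := (Nat.dvd_add_right h3).mp h2
    exact Nat.not_coprime_of_dvd_of_dvd hp'.one_lt h3 h4 hab
  · have h4 : p ∣ a := (Nat.dvd_add_left h3).mp h2
    exact Nat.not_coprime_of_dvd_of_dvd hp'.one_lt h4 h3 hab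

/-- The numbers `n` of the pairs in one class are distinct. -/
theorem eq_of_theta {a b Q : ℕ} (hab : a.Coprime b) {x y : ℕ × ℕ} (h : x.1 = y.1)
    (hx : x.2 < modulus (a + b) Q) (hy : y.2 < modulus (a + b) Q)
    (ht : theta a b Q x.1 x.2 ≡ theta a b Q y.1 y.2 [MOD modulus (a + b) Q]) : x = y := by
  refine Prod.ext h ?_
  unfold theta at ht
  rw [h] at ht
  have h1 := Nat.ModEq.cancel_right_of_coprime
    (coprime_prod (Q := Q) hab fun p => (wv a b Q y.1 p + |kv a b p|).toNat).symm ht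
  exact Nat.ModEq.eq_of_lt_of_lt h1 hx hy

end Pool.Agent.Helper94.ZE
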