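import Pool.Agent.Helper94.ZE.ClusterU
import Pool.Agent.Helper42.ZE.Omega

/-!
# Project ZE, piece CL: the cluster
-/

set_option autoImplicit false

namespace Pool.Agent.Helper94.ZE

open Finset Pool.Agent.Helper18.ZE

theorem exists_cluster (B K : ℕ) (hB : 1 ≤ B) (hK : 1 ≤ K) : ∃ L0 : ℝ, ∀ (a b Q : ℕ) (L : ℝ), 0 < a → 0 < b → a.Coprime b →
    L = Real.log (a + b : ℕ) → L0 ≤ L → (∏ p ∈ (a * b * (a + b)).primeFactors, p : ℕ) ≤ L ^ B →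
    L ≤ 128 * B * Real.log L * Q → 64 * B * Real.log L * Q ≤ L →
    ∃ (Y : ℕ) (T : Finset (ℕ × ℕ)), 1 ≤ Y ∧
      Real.log Y ≤ Real.log (modulus (a + b) Q) - Real.log L / 2 ∧ Q ≤ T.card ^ 9 ∧
      (∀ x ∈ T, ∀ y ∈ T, x.1 = y.1 → x = y) ∧
      (∀ x ∈ T, x.1 < Q ∧ x.2.Prime ∧ x.2 ≤ Y ∧ 4 * Q < x.2 ∧ x.2.Coprime (a * b * (a + b))) ∧
      ∀ x ∈ T, ∀ y ∈ T, (∀ p ∈ (a * b).primeFactors, box a b Q K x.1 p = box a b Q K y.1 p) ∧
        theta a b Q x.1 x.2 ≡ theta a b Q y.1 y.2 [MOD modulus (a + b) Q] := by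
  obtain ⟨x0, hC⟩ := Pool.Agent.Helper60.ZE.card_primes_el
  obtain ⟨L1, hΩ⟩ := Pool.Agent.Helper42.ZE.pow_omega_le K B
  obtain ⟨x1, hx1⟩ := exists_exp_bound
  refine ⟨max (max 16 x0) (max L1 (max (Real.exp x1) (Real.exp ((B : ℝ) ^ 2)))), ?_⟩
  intro a b Q L ha hb hab hL hL0 hN hQ1 hQ2
  simp only [max_le_iff] at hL0
  obtain ⟨⟨g1, g2⟩, g3, g4, g5⟩ := hL0
  have hLpos : 0 < L := by linarith
  have hc : a + b ≠ 0 := by omega
  have hQ : 0 < Q := by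
    rcases Nat.eq_zero_or_pos Q with h | h
    · rw [h] at hQ1
      simp only [Nat.cast_zero, mul_zero] at hQ1
      linarith
    · exact h
  exact cluster_of ha hb hab hQ (by omega) hB hL x0 hC hN hQ1 hQ2
    (hΩ L (a * b) g3 (by positivity) (prod_le_of ha hb hN))
    (Pool.Agent.Helper78.ZE.log_modulus_le hc) (Pool.Agent.Helper78.ZE.le_log_modulus hc hQ) g1 g2
    (cond_of hx1 (by linarith) ((Real.le_log_iff_exp_le hLpos).mpr g4) ((Real.le_log_iff_exp_le hLpos).mpr g5))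

end Pool.Agent.Helper94.ZE
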