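import Pool.Agent.Helper94.ZE.Clus

/-!
# Project ZE, piece CL, second part: the number of the pairs

All the conditions on `L` are explicit hypotheses.
-/

set_option autoImplicit false

namespace Pool.Agent.Helper94.ZE

open Finset Pool.Agent.Helper18.ZE

theorem cluster_of {a b Q K B : ℕ} {L : ℝ} (ha : 0 < a) (hb : 0 < b) (hab : a.Coprime b) (hQ : 0 < Q)
    (hK : 0 < K) (hB : 1 ≤ B) (hL : L = Real.log (a + b : ℕ)) (x0 : ℕ)
    (hC : ∀ x : ℕ, x0 ≤ x → (x : ℝ) ≤ Real.log x * ((Finset.Ioc x (4 * x)).filter Nat.Prime).card)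
    (hN : (∏ p ∈ (a * b * (a + b)).primeFactors, p : ℕ) ≤ L ^ B)
    (hQ1 : L ≤ 128 * B * Real.log L * Q) (hQ2 : 64 * B * Real.log L * Q ≤ L)
    (hω : (K : ℝ) ^ (a * b).primeFactors.card ≤ L ^ (1 / 8 : ℝ))
    (hm1 : 4 * Q * Real.log (modulus (a + b) Q) ≤ Real.log (a + b : ℕ))
    (hm2 : Real.log (a + b : ℕ) - 4 * Q * Real.log (∏ p ∈ (a + b).primeFactors, p : ℕ) ≤
      4 * Q * Real.log (modulus (a + b) Q))
    (e1 : 16 ≤ L) (e2 : (x0 : ℝ) ≤ L) (e3 : 2 ^ 15 * (B : ℝ) ^ 2 * Real.log L ^ 2 * L ^ (1 / 9 : ℝ) ≤ L ^ (3 / 8 : ℝ)) :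
    ∃ (Y : ℕ) (T : Finset (ℕ × ℕ)), 1 ≤ Y ∧
      Real.log Y ≤ Real.log (modulus (a + b) Q) - Real.log L / 2 ∧ Q ≤ T.card ^ 9 ∧
      (∀ x ∈ T, ∀ y ∈ T, x.1 = y.1 → x = y) ∧
      (∀ x ∈ T, x.1 < Q ∧ x.2.Prime ∧ x.2 ≤ Y ∧ 4 * Q < x.2 ∧ x.2.Coprime (a * b * (a + b))) ∧
      ∀ x ∈ T, ∀ y ∈ T, (∀ p ∈ (a * b).primeFactors, box a b Q K x.1 p = box a b Q K y.1 p) ∧
        theta a b Q x.1 x.2 ≡ theta a b Q y.1 y.2 [MOD modulus (a + b) Q] := by
  classical
  set P : ℕ := modulus (a + b) Q with hP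
  have hPpos : 0 < P := by
    rw [hP]
    unfold modulus
    exact Finset.prod_pos fun p hp => pow_pos (Nat.prime_of_mem_primeFactors hp).pos _
  have hPR : (0 : ℝ) < P := by exact_mod_cast hPpos
  set lP : ℝ := Real.log P with hlP
  have hL0 : (0 : ℝ) < L := by linarith
  set lam : ℝ := Real.log L with hlam
  have hlam2 : 2 ≤ lam := by
    have h1 : (2 : ℝ) ≤ Real.log 16 := by
      have h2 : (16 : ℝ) = 2 ^ 4 := by norm_num
      rw [h2, Real.log_pow]
      have := Real.log_two_gt_d9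
      push_cast
      linarith
    exact h1.trans (Real.log_le_log (by norm_num) e1)
  have hlam0 : 0 < lam := by linarith
  have hB' : (1 : ℝ) ≤ B := by exact_mod_cast hB
  have hQ' : (0 : ℝ) < Q := by exact_mod_cast hQ
  have hQ1' : (1 : ℝ) ≤ Q := by exact_mod_cast hQ
  -- the radical of `a + b`
  have hrad : Real.log (∏ p ∈ (a + b).primeFactors, p : ℕ) ≤ B * lam := by
    have h1 : (∏ p ∈ (a + b).primeFactors, p) ≤ ∏ p ∈ (a * b * (a + b)).primeFactors, p := by
      refine Finset.prod_le_prod_of_subset_of_one_le' (Nat.primeFactors_mono (Dvd.intro_left _ rfl) ?_) ?_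
      · positivity
      · intro p hp _
        exact (Nat.prime_of_mem_primeFactors hp).one_lt.le
    have h2 : ((∏ p ∈ (a + b).primeFactors, p : ℕ) : ℝ) ≤ L ^ B :=
      le_trans (by exact_mod_cast h1) hN
    have h3 : (0 : ℝ) < (∏ p ∈ (a + b).primeFactors, p : ℕ) := by
      have : 0 < ∏ p ∈ (a + b).primeFactors, p :=
        Finset.prod_pos fun p hp => (Nat.prime_of_mem_primeFactors hp).pos
      exact_mod_cast this
    calc Real.log (∏ p ∈ (a + b).primeFactors, p : ℕ) ≤ Real.log (L ^ B) := Real.log_le_log h3 h2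
      _ = B * lam := by rw [Real.log_pow]
  rw [← hL] at hm1 hm2
  have hlP1 : 15 * B * lam ≤ lP := by
    have h1 : 4 * Q * Real.log (∏ p ∈ (a + b).primeFactors, p : ℕ) ≤ 4 * Q * (B * lam) :=
      mul_le_mul_of_nonneg_left hrad (by positivity)
    have h2 : 4 * Q * (15 * B * lam) ≤ 4 * Q * lP := by
      calc 4 * Q * (15 * B * lam) = 64 * B * lam * Q - 4 * Q * (B * lam) := by ring
        _ ≤ L - 4 * Q * Real.log (∏ p ∈ (a + b).primeFactors, p : ℕ) := by linarith
        _ ≤ 4 * Q * lP := hm2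
    exact le_of_mul_le_mul_left h2 (by positivity)
  have hlP2 : lP ≤ 32 * B * lam := by
    have h2 : 4 * Q * lP ≤ 4 * Q * (32 * B * lam) := by
      calc 4 * Q * lP ≤ L := hm1
        _ ≤ 128 * B * lam * Q := hQ1
        _ = 4 * Q * (32 * B * lam) := by ring
    exact le_of_mul_le_mul_left h2 (by positivity)
  -- `P ≥ L ^ (15 B)`
  have hPL : L ^ (15 * B) ≤ (P : ℝ) := by
    have h1 : Real.log (L ^ (15 * B)) ≤ Real.log P := by
      rw [Real.log_pow]
      push_cast
      linarith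
    exact (Real.log_le_log_iff (by positivity) hPR).mp h1
  have hsq0 : 0 < Real.sqrt L := Real.sqrt_pos.mpr hL0
  have hsqL : Real.sqrt L ≤ L := by
    rw [Real.sqrt_le_left hL0.le]
    nlinarith
  have hL1 : (1 : ℝ) ≤ L := by linarith
  -- `P / (8 √L) ≥ L ^ (B + 1)`
  have hbig : L ^ (B + 1) ≤ P / (8 * Real.sqrt L) := by
    rw [le_div_iff₀ (by positivity)]
    calc L ^ (B + 1) * (8 * Real.sqrt L) ≤ L ^ (B + 1) * (L * L) := by
          refine mul_le_mul_of_nonneg_left ?_ (by positivity)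
          exact mul_le_mul (by linarith) hsqL hsq0.le (by linarith)
      _ = L ^ (B + 3) := by ring
      _ ≤ L ^ (15 * B) := pow_le_pow_right₀ hL1 (by omega)
      _ ≤ P := hPL
  have hLB1 : L ≤ L ^ B := le_self_pow₀ hL1 (by omega)
  have hLB2 : L ^ B ≤ L ^ (B + 1) := pow_le_pow_right₀ hL1 (by omega)
  set x : ℕ := ⌊(P : ℝ) / (4 * Real.sqrt L)⌋₊ with hx
  have hx1 : (P : ℝ) / (8 * Real.sqrt L) ≤ x := by
    have h1 : (P : ℝ) / (4 * Real.sqrt L) < x + 1 := Nat.lt_floor_add_one _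
    have h2 : (P : ℝ) / (4 * Real.sqrt L) = 2 * (P / (8 * Real.sqrt L)) := by
      field_simp
      ring
    have h3 : (1 : ℝ) ≤ P / (8 * Real.sqrt L) := by linarith
    linarith
  have hx2 : (x : ℝ) ≤ P / (4 * Real.sqrt L) := Nat.floor_le (by positivity)
  have hxL : L ≤ x := by linarith
  have hxN : L ^ B ≤ x := by linarith
  have hx0R : (0 : ℝ) < x := by linarith
  have hx0 : x0 ≤ x := by
    have : (x0 : ℝ) ≤ x := by linarith
    exact_mod_cast this
  have hx0' : 0 < x := by exact_mod_cast hx0R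
  have h64 : 64 * (Q : ℝ) ≤ L := by
    calc 64 * (Q : ℝ) = 64 * 1 * 1 * Q := by ring
      _ ≤ 64 * B * lam * Q := by
        refine mul_le_mul_of_nonneg_right ?_ hQ'.le
        exact mul_le_mul (mul_le_mul_of_nonneg_left hB' (by norm_num)) (by linarith) (by norm_num) (by positivity)
      _ ≤ L := hQ2
  have h4Q : 4 * Q < x := by
    have : (4 * Q : ℝ) < x := by linarith
    exact_mod_cast this
  -- the logarithm of `Y`
  have hlY : Real.log ((4 * x : ℕ) : ℝ) ≤ lP - lam / 2 := by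
    have h1 : ((4 * x : ℕ) : ℝ) ≤ P / Real.sqrt L := by
      push_cast
      calc 4 * (x : ℝ) ≤ 4 * (P / (4 * Real.sqrt L)) := by linarith
        _ = P / Real.sqrt L := by field_simp
    have h2 : (0 : ℝ) < (4 * x : ℕ) := by push_cast; linarith
    calc Real.log ((4 * x : ℕ) : ℝ) ≤ Real.log (P / Real.sqrt L) := Real.log_le_log h2 h1
      _ = lP - lam / 2 := by
        rw [Real.log_div hPR.ne' hsq0.ne', Real.log_sqrt hL0.le]
  have hYP : 4 * x < P := by
    have h1 : ((4 * x : ℕ) : ℝ) ≤ P / Real.sqrt L := by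
      push_cast
      calc 4 * (x : ℝ) ≤ 4 * (P / (4 * Real.sqrt L)) := by linarith
        _ = P / Real.sqrt L := by field_simp
    have h2 : (P : ℝ) / Real.sqrt L < P := by
      rw [div_lt_iff₀ hsq0]
      have h3 : (1 : ℝ) < Real.sqrt L := by
        rw [Real.lt_sqrt (by norm_num)]
        linarith
      nlinarith
    exact_mod_cast lt_of_le_of_lt h1 h2
  set pr : Finset ℕ := (Finset.Ioc x (4 * x)).filter Nat.Prime with hpr
  obtain ⟨T, hTS, hTc, hT⟩ := exists_class (a := a) (b := b) hQ hK P hPpos (Finset.range Q ×ˢ pr)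
  have hmem : ∀ y ∈ T, y.1 < Q ∧ y.2.Prime ∧ y.2 ≤ 4 * x ∧ x < y.2 := by
    intro y hy
    have h1 := hTS hy
    rw [Finset.mem_product, Finset.mem_range, hpr, Finset.mem_filter, Finset.mem_Ioc] at h1
    exact ⟨h1.1, h1.2.2, h1.2.1.2, h1.2.1.1⟩
  refine ⟨4 * x, T, by omega, hlY, ?_, ?_, ?_, hT⟩
  · -- the number of the elements
    have h1 : (x : ℝ) ≤ Real.log x * pr.card := hC x hx0
    have h2 : Real.log x ≤ 32 * B * lam := by
      have h3 : Real.log x ≤ Real.log P := by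
        refine Real.log_le_log hx0R ?_
        have : x ≤ P := by omega
        exact_mod_cast this
      linarith
    have hcard : (Finset.range Q ×ˢ pr).card = Q * pr.card := by
      rw [Finset.card_product, Finset.card_range]
    rw [hcard] at hTc
    have h3 : ((Q : ℝ) * pr.card) ≤ (K : ℝ) ^ (a * b).primeFactors.card * P * T.card := by
      exact_mod_cast hTc
    have hT0 : (0 : ℝ) ≤ T.card := Nat.cast_nonneg _
    have h4 : (Q : ℝ) * x ≤ 32 * B * lam * (L ^ (1 / 8 : ℝ) * P * T.card) := by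
      calc (Q : ℝ) * x ≤ Q * (Real.log x * pr.card) := mul_le_mul_of_nonneg_left h1 hQ'.le
        _ = Real.log x * (Q * pr.card) := by ring
        _ ≤ 32 * B * lam * (Q * pr.card) := mul_le_mul_of_nonneg_right h2 (by positivity)
        _ ≤ 32 * B * lam * ((K : ℝ) ^ (a * b).primeFactors.card * P * T.card) :=
            mul_le_mul_of_nonneg_left h3 (by positivity)
        _ ≤ 32 * B * lam * (L ^ (1 / 8 : ℝ) * P * T.card) := by
            refine mul_le_mul_of_nonneg_left ?_ (by positivity)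
            refine mul_le_mul_of_nonneg_right ?_ hT0
            exact mul_le_mul_of_nonneg_right hω hPR.le
    -- multiply by `128 B lam`
    have h5 : L * (P / (8 * Real.sqrt L)) ≤ 128 * B * lam * (32 * B * lam * (L ^ (1 / 8 : ℝ) * P * T.card)) := by
      calc L * (P / (8 * Real.sqrt L)) ≤ (128 * B * lam * Q) * x :=
            mul_le_mul hQ1 hx1 (by positivity) (by positivity)
        _ = 128 * B * lam * (Q * x) := by ring
        _ ≤ _ := mul_le_mul_of_nonneg_left h4 (by positivity)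
    have hs1 : Real.sqrt L = L ^ (1 / 2 : ℝ) := Real.sqrt_eq_rpow L
    have h6 : L = L ^ (1 / 8 : ℝ) * L ^ (3 / 8 : ℝ) * Real.sqrt L := by
      rw [hs1, ← Real.rpow_add hL0, ← Real.rpow_add hL0]
      norm_num
    have h7 : L ^ (3 / 8 : ℝ) ≤ 2 ^ 15 * (B : ℝ) ^ 2 * lam ^ 2 * T.card := by
      have h8 : (0 : ℝ) < L ^ (1 / 8 : ℝ) * P / 8 := by positivity
      refine le_of_mul_le_mul_left ?_ h8
      calc L ^ (1 / 8 : ℝ) * P / 8 * L ^ (3 / 8 : ℝ) =
            (L ^ (1 / 8 : ℝ) * L ^ (3 / 8 : ℝ) * Real.sqrt L) * (P / (8 * Real.sqrt L)) := by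
              field_simp
        _ = L * (P / (8 * Real.sqrt L)) := by rw [← h6]
        _ ≤ 128 * B * lam * (32 * B * lam * (L ^ (1 / 8 : ℝ) * P * T.card)) := h5
        _ = L ^ (1 / 8 : ℝ) * P / 8 * (2 ^ 15 * (B : ℝ) ^ 2 * lam ^ 2 * T.card) := by ring
    have h9 : L ^ (1 / 9 : ℝ) ≤ T.card := by
      have h8 : (0 : ℝ) < 2 ^ 15 * (B : ℝ) ^ 2 * lam ^ 2 := by positivity
      refine le_of_mul_le_mul_left ?_ h8
      exact e3.trans h7
    have h10 : L ≤ (T.card : ℝ) ^ 9 := by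
      calc L = (L ^ (1 / 9 : ℝ)) ^ 9 := by
            rw [← Real.rpow_natCast, ← Real.rpow_mul hL0.le]
            norm_num
        _ ≤ (T.card : ℝ) ^ 9 := pow_le_pow_left₀ (by positivity) h9 9
    have h11 : (Q : ℝ) ≤ (T.card : ℝ) ^ 9 := by linarith
    exact_mod_cast h11
  · intro y hy z hz hyz
    have h1 := hmem y hy
    have h2 := hmem z hz
    exact eq_of_theta hab hyz (by omega) (by omega) (hT y hy z hz).2
  · intro y hy
    obtain ⟨h1, h2, h3, h4⟩ := hmem y hy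
    refine ⟨h1, h2, h3, by omega, ?_⟩
    rw [Nat.Prime.coprime_iff_not_dvd h2]
    intro h5
    have hne : a * b * (a + b) ≠ 0 := by positivity
    have h6 : y.2 ∈ (a * b * (a + b)).primeFactors := Nat.mem_primeFactors.mpr ⟨h2, h5, hne⟩
    have h7 : y.2 ≤ ∏ p ∈ (a * b * (a + b)).primeFactors, p := by
      refine Nat.le_of_dvd (Finset.prod_pos fun p hp => (Nat.prime_of_mem_primeFactors hp).pos) ?_
      exact Finset.dvd_prod_of_mem (fun p => p) h6
    have h8 : ((y.2 : ℕ) : ℝ) ≤ x := by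
      calc ((y.2 : ℕ) : ℝ) ≤ (∏ p ∈ (a * b * (a + b)).primeFactors, p : ℕ) := by exact_mod_cast h7
        _ ≤ L ^ B := hN
        _ ≤ x := hxN
    have h9 : y.2 ≤ x := by exact_mod_cast h8
    omega

end Pool.Agent.Helper94.ZE
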