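import Pool.Agent.Helper18.ZE.Defs

/-!
# Project ZE, piece D2: the determinant is divisible by a power of `P`

`dvd_det_of` has the statement of D1 as a hypothesis.
-/

set_option autoImplicit false

namespace Pool.Agent.Helper94.ZE

open Finset Pool.Agent.Helper18.ZE

/-- If the columns of the second group are combinations of the columns of the first group modulo `m`, the
determinant is divisible by `m ^ (number of the columns of the second group)`. -/
theorem pow_dvd_det {α β : Type} [Fintype α] [Fintype β] [DecidableEq α] [DecidableEq β] (m : ℤ)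
    (M : Matrix (α ⊕ β) (α ⊕ β) ℤ) (x : β → α → ℤ)
    (h : ∀ c b, m ∣ M c (Sum.inr b) - ∑ a, x b a * M c (Sum.inl a)) :
    m ^ Fintype.card β ∣ M.det := by
  choose y hy using h
  have hU : (Matrix.fromBlocks 1 (Matrix.of fun a b => -x b a) 0 1 :
      Matrix (α ⊕ β) (α ⊕ β) ℤ).det = 1 := by
    rw [Matrix.det_fromBlocks_zero₂₁, Matrix.det_one, Matrix.det_one, mul_one]
  have hM : M * Matrix.fromBlocks 1 (Matrix.of fun a b => -x b a) 0 1 =
      (Matrix.of fun c d => Sum.elim (fun a => M c (Sum.inl a)) (fun b => y c b) d) *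
        Matrix.diagonal (Sum.elim (fun _ => 1) (fun _ => m)) := by
    ext c d
    rw [Matrix.mul_diagonal, Matrix.mul_apply, Fintype.sum_sum_type]
    rcases d with a | b
    · simp [Matrix.one_apply]
    · have h1 := hy c b
      simp only [Matrix.fromBlocks_apply₁₂, Matrix.fromBlocks_apply₂₂, Matrix.of_apply, Sum.elim_inr]
      rw [mul_comm (y c b) m, ← h1]
      have h2 : ∑ b', M c (Sum.inr b') * (1 : Matrix β β ℤ) b' b = M c (Sum.inr b) := by
        simp [Matrix.one_apply]
      rw [h2]
      have h3 : ∑ a, M c (Sum.inl a) * -x b a = -∑ a, x b a * M c (Sum.inl a) := by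
        rw [← Finset.sum_neg_distrib]
        exact Finset.sum_congr rfl fun a _ => by ring
      rw [h3]
      ring
  have h4 : M.det = (M * Matrix.fromBlocks 1 (Matrix.of fun a b => -x b a) 0 1).det := by
    rw [Matrix.det_mul, hU, mul_one]
  rw [h4, hM, Matrix.det_mul, Matrix.det_diagonal, Fintype.prod_sum_type]
  simp

/-- D2 from D1: the determinant is divisible by `P ^ ((s - 1) q T1)`. -/
theorem dvd_det_of {r q s : ℕ} (P : ℕ) (N : Row r → ℤ)
    (u κ : ZMod (P ^ ((s - 1) * q))) (ρ : Fin r → ZMod (P ^ ((s - 1) * q)))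
    (hspan : ∀ a : Rx r q, ∃ x : Ex r q s → ZMod (P ^ ((s - 1) * q)), ∀ v : Row r,
      (u * (∏ i : Fin r, ρ i ^ v.1 i.succ) * κ ^ v.2) * (bin v a.1 : ZMod (P ^ ((s - 1) * q))) =
        ∑ p : Ex r q s, x p * ((bin v p.1.1 * v.2.choose p.1.2 : ℕ) : ZMod (P ^ ((s - 1) * q))))
    (rows : Col r q s → Row r)
    (hN : ∀ c, (N (rows c) : ZMod (P ^ ((s - 1) * q))) =
      u * (∏ i : Fin r, ρ i ^ (rows c).1 i.succ) * κ ^ (rows c).2) :
    ((P : ℤ) ^ ((s - 1) * q * (Rx r q).card)) ∣ (Matrix.of fun c d => entry N (rows c) d).det := by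
  choose x hx using hspan
  have hlift : ∀ z : ZMod (P ^ ((s - 1) * q)), ∃ w : ℤ, (w : ZMod (P ^ ((s - 1) * q))) = z :=
    fun z => ZMod.intCast_surjective z
  choose L hL using hlift
  have h := pow_dvd_det ((P : ℤ) ^ ((s - 1) * q)) (Matrix.of fun c d => entry N (rows c) d)
    (fun b a => L (x b a)) (fun c b => by
      have h1 : (((P ^ ((s - 1) * q) : ℕ) : ℤ)) ∣ entry N (rows c) (Sum.inr b : Col r q s) -
          ∑ a : Ex r q s, L (x b a) * entry N (rows c) (Sum.inl a : Col r q s) := by
        rw [← ZMod.intCast_zmod_eq_zero_iff_dvd]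
        push_cast
        simp only [entry, hL]
        push_cast
        rw [hN c, sub_eq_zero]
        have h2 := hx b (rows c)
        push_cast at h2
        exact h2
      push_cast at h1
      exact h1)
  rw [Fintype.card_coe, ← pow_mul] at h
  exact h

end Pool.Agent.Helper94.ZE
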